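import Pool.Agent.Results.MP_122e00_nt.PowerSavingShifts
import Pool.Agent.Helper203.Win.Multi

/-!
# Correlations of the divisor functions for ALL shifts in windows of power length, with a power saving

`v_n ≥ 1` is a sequence of reals of exponent of convergence at most `τ`, `N_n` are natural numbers with
`v_n ≤ N_n ≤ v_n ^ (1 + θ)`, and `κ < 1`. For all `α` in `[-B, B]` outside a set of Hausdorff dimension at most
`(1 - θ + τ) / (1 - κ)` and all large `n` ALL the shifts `h ≠ 0` with `|h - α v_n| ≤ v_n ^ κ` have the expected asymptotic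
formula for the sum of `d_r(m) d_r(m + h)` over `m ≤ x`, for ALL `x ≤ N_n`, with a power saving.
-/

set_option autoImplicit false

namespace Pool.Agent.Results.MP_122e00_nt.AllShiftsInWindows

open Finset Polynomial MeasureTheory Filter Topology
open Pool.Agent.Results.MP_122e00_nt.PowerSavingShifts

/-- the exponent of convergence of the sequence `v` is at most `τ` -/
def ExpLe (v : ℕ → ℝ) (τ : ℝ) : Prop := ∀ t : ℝ, τ < t → Summable (fun n : ℕ => (v n) ^ (-t))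

/-- counting in a symmetric interval by blocks -/
lemma count_blocks (Q : ℤ → Prop) (B M : ℕ) (hM : 1 ≤ M) (K : ℝ)
    (h : ∀ c : ℤ, |c| ≤ (B + 2 : ℕ) * (M : ℤ) → ∀ [DecidablePred fun m : ℕ => c + (m : ℤ) ≠ 0 ∧ Q (c + (m : ℤ))],
      (((Icc 1 M).filter (fun m : ℕ => c + (m : ℤ) ≠ 0 ∧ Q (c + (m : ℤ)))).card : ℝ) ≤ K) :
    {t : ℤ | (t ≠ 0 ∧ |t| ≤ ((B + 1 : ℕ) : ℤ) * M) ∧ Q t}.Finite ∧
      ({t : ℤ | (t ≠ 0 ∧ |t| ≤ ((B + 1 : ℕ) : ℤ) * M) ∧ Q t}.ncard : ℝ) ≤ (2 * B + 3) * K := by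
  classical
  have hM0 : (0 : ℤ) < M := by exact_mod_cast hM
  set c : ℕ → ℤ := fun j => ((j : ℤ) - (B + 2)) * M with hc
  set F : Finset ℤ := (range (2 * B + 3)).biUnion (fun j => ((Icc 1 M).filter (fun m : ℕ => c j + (m : ℤ) ≠ 0 ∧
    Q (c j + (m : ℤ)))).image (fun m : ℕ => c j + (m : ℤ))) with hF
  have hsub : {t : ℤ | (t ≠ 0 ∧ |t| ≤ ((B + 1 : ℕ) : ℤ) * M) ∧ Q t} ⊆ (F : Set ℤ) := by
    rintro t ⟨⟨ht0, ht⟩, hQ⟩
    push_cast at ht
    obtain ⟨h1, h2⟩ := abs_le.1 ht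
    -- t + (B + 2) M is in [M, (2 B + 3) M]
    set a : ℤ := t + (B + 2) * M - 1 with ha
    have ha0 : 0 ≤ a := by nlinarith
    have ha1 : a < (2 * B + 3) * M := by nlinarith
    set j : ℤ := a / M with hj
    have hj0 : 0 ≤ j := Int.ediv_nonneg ha0 hM0.le
    have hj1 : j < 2 * B + 3 := Int.ediv_lt_of_lt_mul hM0 ha1
    have hmod0 : 0 ≤ a % M := Int.emod_nonneg _ hM0.ne'
    have hmod1 : a % M < M := Int.emod_lt_of_pos _ hM0
    have hdm : a % M + M * j = a := Int.emod_add_mul_ediv a M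
    obtain ⟨j', hj'⟩ := Int.eq_ofNat_of_zero_le hj0
    obtain ⟨m', hm'⟩ := Int.eq_ofNat_of_zero_le hmod0
    rw [Finset.mem_coe, hF, mem_biUnion]
    refine ⟨j', mem_range.2 (by omega), ?_⟩
    have e : c j' + ((m' + 1 : ℕ) : ℤ) = t := by
      simp only [hc]
      push_cast
      have : (j' : ℤ) = j := hj'.symm
      have h5 : (m' : ℤ) = a % M := hm'.symm
      rw [this, h5]
      have h6 : a % M + M * j = t + (B + 2) * M - 1 := hdm
      linarith
    rw [mem_image]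
    refine ⟨m' + 1, ?_, e⟩
    rw [mem_filter, mem_Icc, e]
    exact ⟨⟨by omega, by omega⟩, ht0, hQ⟩
  refine ⟨(finite_toSet F).subset hsub, ?_⟩
  have h1 : ({t : ℤ | (t ≠ 0 ∧ |t| ≤ ((B + 1 : ℕ) : ℤ) * M) ∧ Q t}.ncard : ℝ) ≤ F.card := by
    rw [← Set.ncard_coe_finset F]
    exact_mod_cast Set.ncard_le_ncard hsub (finite_toSet F)
  refine h1.trans ?_
  calc (F.card : ℝ) ≤ ∑ j ∈ range (2 * B + 3), ((((Icc 1 M).filter (fun m : ℕ => c j + (m : ℤ) ≠ 0 ∧
          Q (c j + (m : ℤ)))).image (fun m : ℕ => c j + (m : ℤ))).card : ℝ) := by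
        exact_mod_cast card_biUnion_le
    _ ≤ ∑ _j ∈ range (2 * B + 3), K := by
        apply sum_le_sum
        intro j hj
        rw [mem_range] at hj
        have h2 : ((((Icc 1 M).filter (fun m : ℕ => c j + (m : ℤ) ≠ 0 ∧ Q (c j + (m : ℤ)))).image
            (fun m : ℕ => c j + (m : ℤ))).card : ℝ) ≤
            (((Icc 1 M).filter (fun m : ℕ => c j + (m : ℤ) ≠ 0 ∧ Q (c j + (m : ℤ)))).card : ℝ) := by
          exact_mod_cast card_image_le
        refine h2.trans ?_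
        have h3 := h (c j) (by
          simp only [hc]
          rw [abs_mul, abs_of_pos hM0]
          push_cast
          apply mul_le_mul_of_nonneg_right _ hM0.le
          rw [abs_le]
          constructor <;> omega)
        convert h3
    _ = (2 * B + 3) * K := by
        rw [sum_const, card_range, nsmul_eq_mul]
        push_cast
        ring

/-- Let `r ≥ 2`. There are polynomials `P_q` (`q ≥ 1`) and `T_h` (`h ≠ 0`) with the following properties.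

(0) As in the starting file `PowerSavingShifts`: `P_q` is the density of `d_r(n) e(b n / q)`, `(b, q) = 1`, with a power
saving; for `h ≠ 0` the series `G_h(u, v) = ∑ c_q(h) P_q(u) P_q(v)` converges absolutely, `T_h(u) + T_h'(u) = G_h(u, u)`, and
`T_h` has degree `2 r - 2` and leading coefficient `𝔖_r(h) / ((r - 1)!) ^ 2`.

(1) For every `B` there is `0 < θ ≤ 1` such that for every `0 < η ≤ θ`, all sequences `v_n ≥ 1` of exponent of convergence at
most `τ ≥ 0`, all natural numbers `N_n` with `v_n ≤ N_n ≤ v_n ^ (1 + θ)` and all `κ < 1` there is a set `E` of Hausdorff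
dimension at most `(1 - θ + τ) / (1 - κ)` such that for each real `α` outside `E`, `|α| ≤ B`, and all large `n` ALL integers
`h ≠ 0` with `|h - α v_n| ≤ v_n ^ κ` satisfy, for ALL `x ≤ N_n`, `D_r(x; h) = ∑ G_h(log m, log(m + h)) + O(N_n ^ (1 - θ))` (the sum
over `m ≤ x` with `m + h ≥ 1`) and, if `|h| ≤ N_n ^ (1 - η)`, `D_r(x; h) = x T_h(log x) + O(N_n ^ (1 - η / 8))`, with implied
constants `1`. -/
theorem result (r : ℕ) (hr : 2 ≤ r) : ∃ (P : ℕ → ℝ[X]) (T : ℤ → ℝ[X]),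
    (Density r P ∧ (∀ q, 1 ≤ q → (P q).natDegree = r - 1 ∧ (P q).leadingCoeff = κ (r - 1) q / ((r - 1).factorial : ℝ)) ∧
      ∀ ε : ℝ, 0 < ε → ∃ C : ℝ, ∀ q i : ℕ, 1 ≤ q → |(P q).coeff i| ≤ C * (q : ℝ) ^ (ε - 1)) ∧
    (∀ h : ℤ, h ≠ 0 → (∀ u v : ℝ, Summable (fun q : ℕ => (ram (q + 1) h : ℝ) * ((P (q + 1)).eval u * (P (q + 1)).eval v))) ∧
      (∀ u : ℝ, (T h).eval u + (derivative (T h)).eval u = G P h u u) ∧
      (T h).natDegree = 2 * r - 2 ∧ (T h).leadingCoeff = 𝔖 r h / ((r - 1).factorial : ℝ) ^ 2) ∧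
    (∀ B : ℕ, ∃ θ : ℝ, 0 < θ ∧ θ ≤ 1 ∧ ∀ η : ℝ, 0 < η → η ≤ θ → ∀ (v : ℕ → ℝ) (N : ℕ → ℕ) (τ κ : ℝ),
      (∀ n, 1 ≤ v n) → 0 ≤ τ → ExpLe v τ → (∀ n, v n ≤ N n ∧ (N n : ℝ) ≤ (v n) ^ (1 + θ)) → κ < 1 →
      ∃ E : Set ℝ, dimH E ≤ ENNReal.ofReal ((1 - θ + τ) / (1 - κ)) ∧ ∀ α : ℝ, |α| ≤ B → α ∉ E →
        ∃ n₀ : ℕ, ∀ n : ℕ, n₀ ≤ n → ∀ h : ℤ, h ≠ 0 → |(h : ℝ) - α * v n| ≤ (v n) ^ κ → Asymp r (N n) P T θ η h) := by
  classical
  obtain ⟨P, T, h0, h1, -, h3⟩ := PowerSavingShifts.result r hr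
  refine ⟨P, T, h0, h1, fun B => ?_⟩
  obtain ⟨θ, hθ, h4⟩ := h3 X (by rw [natDegree_X]) (B + 2)
  refine ⟨min θ 1, lt_min hθ one_pos, min_le_right _ _, fun η hη hηθ v N τ κ hv hτ hE hN hκ => ?_⟩
  obtain ⟨M₀, h5⟩ := h4 η hη (hηθ.trans (min_le_left _ _))
  have hvp : ∀ n, 0 < v n := fun n => lt_of_lt_of_le one_pos (hv n)
  have htv : Tendsto v atTop atTop := Pool.Agent.Y854.GM.tendsto_of_expLe hvp hτ hE
  obtain ⟨n₁, hn₁⟩ := Filter.eventually_atTop.1 (htv.eventually_ge_atTop (M₀ : ℝ))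
  have hmono : ∀ n (h : ℤ), Asymp r (N n) P T θ η h → Asymp r (N n) P T (min θ 1) η h := by
    intro n h hA x hx
    refine ⟨(hA x hx).1.trans ?_, (hA x hx).2⟩
    apply Real.rpow_le_rpow_of_exponent_le ((hv n).trans (hN n).1)
    linarith [min_le_left θ 1]
  set S : ℕ → Set ℤ := fun n => {t : ℤ | (t ≠ 0 ∧ |t| ≤ ((B + 1 : ℕ) : ℤ) * (⌈v n⌉₊ : ℤ)) ∧ ¬ Asymp r (N n) P T (min θ 1) η t}
    with hS
  obtain ⟨E, hE1, hE2⟩ := Pool.Agent.Helper203.Win.windowsM (E := ℝ) S (fun _ (t : ℤ) => (t : ℝ)) (v := v) (s := 1 - min θ 1)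
    (τ := τ) (θ := κ) hv hτ hE (by linarith [min_le_right θ 1]) hκ (by
      intro A ε hε
      refine ⟨(2 * B + 3) * 2, n₁, fun n hn => ?_⟩
      have hM1 : 1 ≤ ⌈v n⌉₊ := Nat.ceil_pos.2 (hvp n)
      have hM0 : M₀ ≤ ⌈v n⌉₊ := by exact_mod_cast (hn₁ n hn).trans (Nat.le_ceil (v n))
      have hMr : (1 : ℝ) ≤ (⌈v n⌉₊ : ℝ) := by exact_mod_cast hM1
      have hMv : (⌈v n⌉₊ : ℝ) ≤ 2 * v n := by
        have := (Nat.ceil_lt_add_one (hvp n).le).le
        linarith [hv n]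
      have hNn : ⌈v n⌉₊ ≤ N n := Nat.ceil_le.2 (hN n).1
      have hb := count_blocks (fun t => ¬ Asymp r (N n) P T (min θ 1) η t) B ⌈v n⌉₊ hM1 ((⌈v n⌉₊ : ℝ) ^ (1 - θ)) (by
        intro c hc _
        have h6 := h5 ⌈v n⌉₊ hM0 (N n) (by rw [natDegree_X, pow_one]; exact hNn) (by
          rw [natDegree_X, Nat.cast_one, mul_one]
          refine (hN n).2.trans ?_
          refine (Real.rpow_le_rpow_of_exponent_le (hv n) (by linarith [min_le_left θ 1])).trans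
            (Real.rpow_le_rpow (hvp n).le (Nat.le_ceil _) (by linarith))) c (by
          rw [natDegree_X, pow_one]
          exact hc)
        refine le_trans ?_ h6
        apply Nat.cast_le.2
        apply card_le_card
        intro m hm
        have hm' := mem_filter.1 hm
        refine mem_filter.2 ⟨hm'.1, ?_, ?_⟩
        · rw [eval_X]
          exact hm'.2.1
        · rw [eval_X]
          exact fun hA => hm'.2.2 (hmono n _ hA))
      have hsub : {t : ℤ | t ∈ S n ∧ ‖(t : ℝ)‖ ≤ ((A : ℝ) + 1) * v n} ⊆ S n := fun t ht => ht.1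
      refine ⟨hb.1.subset hsub, ?_⟩
      have h7 : ({t : ℤ | t ∈ S n ∧ ‖(t : ℝ)‖ ≤ ((A : ℝ) + 1) * v n}.ncard : ℝ) ≤ ((S n).ncard : ℝ) := by
        exact_mod_cast Set.ncard_le_ncard hsub hb.1
      refine h7.trans (hb.2.trans ?_)
      have h8 : (⌈v n⌉₊ : ℝ) ^ (1 - θ) ≤ 2 * (v n) ^ (1 - min θ 1 + ε) := by
        calc (⌈v n⌉₊ : ℝ) ^ (1 - θ) ≤ (⌈v n⌉₊ : ℝ) ^ (1 - min θ 1) :=
              Real.rpow_le_rpow_of_exponent_le hMr (by linarith [min_le_left θ 1])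
          _ ≤ (2 * v n) ^ (1 - min θ 1) := Real.rpow_le_rpow (by linarith) hMv (by linarith [min_le_right θ 1])
          _ = 2 ^ (1 - min θ 1) * (v n) ^ (1 - min θ 1) := Real.mul_rpow (by norm_num) (hvp n).le
          _ ≤ 2 * (v n) ^ (1 - min θ 1 + ε) := by
              apply mul_le_mul _ (Real.rpow_le_rpow_of_exponent_le (hv n) (by linarith)) (Real.rpow_nonneg (hvp n).le _)
                (by norm_num)
              calc (2 : ℝ) ^ (1 - min θ 1) ≤ 2 ^ (1 : ℝ) :=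
                    Real.rpow_le_rpow_of_exponent_le (by norm_num) (by linarith [lt_min hθ one_pos])
                _ = 2 := Real.rpow_one 2
      calc (2 * (B : ℝ) + 3) * (⌈v n⌉₊ : ℝ) ^ (1 - θ) ≤ (2 * B + 3) * (2 * (v n) ^ (1 - min θ 1 + ε)) :=
            mul_le_mul_of_nonneg_left h8 (by positivity)
        _ = (2 * B + 3) * 2 * (v n) ^ (1 - min θ 1 + ε) := by ring)
  refine ⟨E, hE1, fun α hα hαE => ?_⟩
  obtain ⟨n₀, hn₀⟩ := hE2 α hαE
  refine ⟨n₀, fun n hn h hh hw => ?_⟩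
  by_contra hA
  have hmem : h ∈ S n := by
    refine ⟨⟨hh, ?_⟩, hA⟩
    have h6 : |(h : ℝ)| ≤ ((B + 1 : ℕ) : ℝ) * (⌈v n⌉₊ : ℝ) := by
      have h7 : |(h : ℝ)| ≤ |(h : ℝ) - α * v n| + |α * v n| := by
        calc |(h : ℝ)| = |((h : ℝ) - α * v n) + α * v n| := by rw [sub_add_cancel]
          _ ≤ _ := abs_add_le _ _
      have h8 : |α * v n| ≤ B * v n := by
        rw [abs_mul, abs_of_pos (hvp n)]
        exact mul_le_mul_of_nonneg_right hα (hvp n).le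
      have h9 : (v n) ^ κ ≤ v n := by
        calc (v n) ^ κ ≤ (v n) ^ (1 : ℝ) := Real.rpow_le_rpow_of_exponent_le (hv n) hκ.le
          _ = v n := Real.rpow_one _
      have h10 : v n ≤ (⌈v n⌉₊ : ℝ) := Nat.le_ceil _
      have h11 : |(h : ℝ)| ≤ (B + 1) * v n := by linarith
      push_cast
      exact h11.trans (mul_le_mul_of_nonneg_left h10 (by positivity))
    have h12 : ((|h| : ℤ) : ℝ) ≤ ((((B + 1 : ℕ) : ℤ) * (⌈v n⌉₊ : ℤ) : ℤ) : ℝ) := by
      push_cast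
      push_cast at h6
      exact h6
    exact_mod_cast h12
  have h6 := hn₀ n hn h hmem
  rw [smul_eq_mul, Real.norm_eq_abs, mul_comm (v n) α] at h6
  exact absurd hw (not_le.2 h6)

end Pool.Agent.Results.MP_122e00_nt.AllShiftsInWindows
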