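import Pool.Agent.Results.MP_122e00_nt.PowerSavingShifts
import Pool.Agent.V11290.TI.A2
import Pool.Agent.V11290.FD.Fam4

/-!
# Correlations of the divisor functions with a power saving, for all shifts near the typical dilates `t α + s`, `α` in sets of
arbitrarily small Fourier dimension

Let `μ` be ANY compactly supported probability measure on the line whose Fourier transform decays like some power, with an
arbitrarily small exponent. For `μ`-almost every `α` and all but finitely many `j`, ALL shifts `h ≠ 0` near `t j α + s j` have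
the expected asymptotic formula for the sum of `d_r(n) d_r(n + h)` over `n ≤ x`, for ALL `x ≤ t j` simultaneously, with a
power saving. The integers near `t α + s` are modelled by families of nearly minimal additive energy, to which the theorem of
the starting file `PowerSavingShifts` applies.
-/

set_option autoImplicit false

namespace Pool.Agent.Results.MP_122e00_nt.FourierDecay

open Finset Polynomial MeasureTheory
open Pool.Agent.Results.MP_122e00_nt.PowerSavingShifts

/-- **Correlations of the divisor functions for shifts near typical dilates, with a power saving.** Let `r ≥ 2`.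
There are polynomials `P_q` (`q ≥ 1`) and `T_h` (`h ≠ 0`) with the following properties.

(0) `P_q` is the density of `d_r(n) e(b n / q)`, `(b, q) = 1`, with a power saving. For `h ≠ 0` the series
`G_h(u, v) = ∑ c_q(h) P_q(u) P_q(v)` converges; `y T_h(log y)` has the derivative `G_h(log y, log y)`; `T_h` has degree
`2 r - 2` and leading coefficient `𝔖_r(h) / ((r - 1)!) ^ 2`.

(1) Let `B`, `C`, `σ > 0` be given. There is `θ > 0` such that for every `0 < η ≤ θ`, every probability measure `μ` on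
`[-B, B]` with `|μ^(ξ)| ≤ C |ξ| ^ (-σ)` for `|ξ| ≥ 1`, and all real numbers `t j ≥ 2`, `|s j| ≤ B t j` such that the sum of the
`1 / log ^ V (t j)` converges for some `V`: for `μ`-almost every `α`, all `A` and all but finitely many `j`, ALL integers
`h ≠ 0` with `|h - (t j α + s j)| ≤ log ^ A (t j)` satisfy, for ALL `x ≤ N = ⌈t j⌉`,
`D_r(x; h) = ∑ G_h(log n, log(n + h)) + O(N ^ (1 - θ))` (the sum over `n ≤ x` with `n + h ≥ 1`) and, if `|h| ≤ N ^ (1 - η)`,
`D_r(x; h) = x T_h(log x) + O(N ^ (1 - η / 8))`, with implied constants `1`. -/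
theorem result (r : ℕ) (hr : 2 ≤ r) : ∃ (P : ℕ → ℝ[X]) (T : ℤ → ℝ[X]), Density r P ∧
    (∀ h : ℤ, h ≠ 0 → (∀ u v : ℝ, Summable (fun q : ℕ => (ram (q + 1) h : ℝ) * ((P (q + 1)).eval u * (P (q + 1)).eval v))) ∧
      (∀ u : ℝ, (T h).eval u + (derivative (T h)).eval u = G P h u u) ∧
      (T h).natDegree = 2 * r - 2 ∧ (T h).leadingCoeff = 𝔖 r h / ((r - 1).factorial : ℝ) ^ 2) ∧
    ∀ B C σ : ℝ, 0 < σ → ∃ θ : ℝ, 0 < θ ∧ ∀ η : ℝ, 0 < η → η ≤ θ →
      ∀ (μ : Measure ℝ) [IsProbabilityMeasure μ], (∀ᵐ α ∂μ, |α| ≤ B) →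
      (∀ ξ : ℝ, 1 ≤ |ξ| → ‖charFun μ ξ‖ ≤ C * |ξ| ^ (-σ)) →
      ∀ (J : Type) (t s : J → ℝ), (∀ j, 2 ≤ t j) → (∀ j, |s j| ≤ B * t j) →
      (∃ V : ℕ, Summable fun j => 1 / Real.log (t j) ^ V) →
      ∀ᵐ α ∂μ, ∀ A : ℕ, {j | ¬ ∀ h : ℤ, h ≠ 0 → |(h : ℝ) - (t j * α + s j)| ≤ Real.log (t j) ^ A →
        Asymp r ⌈t j⌉₊ P T θ η h}.Finite := by
  classical
  obtain ⟨P, T, ⟨hdens, _, _⟩, hT, hfam, _⟩ := PowerSavingShifts.result r hr
  refine ⟨P, T, hdens, hT, fun B C σ hσ => ?_⟩
  obtain ⟨p, hp⟩ := exists_nat_ge (1 / σ)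
  obtain ⟨B₁, hB₁⟩ := exists_nat_ge (2 * (|B| + 1) + 8)
  have hpσ : 1 ≤ ((p + 1 : ℕ) : ℝ) * σ := by
    rw [div_le_iff₀ hσ] at hp
    push_cast
    nlinarith
  obtain ⟨θ, hθ, hmain⟩ := hfam (p + 1) B₁
  refine ⟨θ, hθ, fun η hη hηθ μ _ hμ hdec J t s ht hs ⟨V, hV⟩ => ?_⟩
  obtain ⟨N₀, h0⟩ := hmain η hη hηθ
  have h := Pool.Agent.V11290.FD.abs_one' (|B| + 1) C σ (by positivity) hσ μ hdec
    (by
      filter_upwards [hμ] with α hα
      linarith [le_abs_self B]) t s ht V hV (fun j => (hs j).trans (by nlinarith [ht j, le_abs_self B])) (p + 1) (by omega) hpσ B₁ hB₁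
    (fun _ _ j h => h ≠ 0 → Asymp r ⌈t j⌉₊ P T θ η h) (by
    intro A i
    obtain ⟨n1, h1⟩ := Pool.Agent.TH212.DV.ev_pow (V + A + 2) 1 θ hθ
    obtain ⟨n2, h2⟩ := Pool.Agent.TH212.DV.ev_log 1
    refine ⟨max (max N₀ n1) n2, fun j hj x v hx hv hE 𝒮 h𝒮 hbad => ?_⟩
    obtain ⟨N, hN⟩ : ∃ N : ℕ, N = ⌈t j⌉₊ := ⟨_, rfl⟩
    have hN1 : t j ≤ (N : ℝ) := by rw [hN]; exact Nat.le_ceil _
    rw [← hN] at hv hE hbad ⊢
    have q0 : N₀ ≤ N := by
      have : (N₀ : ℝ) ≤ (N : ℝ) := (((le_max_left _ _).trans (le_max_left _ _)).trans hj).trans hN1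
      exact_mod_cast this
    have q1 : n1 ≤ N := by
      have : (n1 : ℝ) ≤ (N : ℝ) := (((le_max_right _ _).trans (le_max_left _ _)).trans hj).trans hN1
      exact_mod_cast this
    have q2 : n2 ≤ N := by
      have : (n2 : ℝ) ≤ (N : ℝ) := ((le_max_right _ _).trans hj).trans hN1
      exact_mod_cast this
    have e1 := h1 N q1
    have e2 := h2 N q2
    rw [one_mul] at e1
    have htj := ht j
    have hN0 : (0 : ℝ) < N := by linarith
    have hlogθ : Real.log (N : ℝ) ≤ (N : ℝ) ^ θ := by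
      refine le_trans ?_ e1
      exact le_self_pow₀ e2 (by omega)
    have key := h0 N q0 (Fin x) (fun i : Fin x => v ((i : ℕ) + 1)) (fun i => hv _ (mem_Icc.2 ⟨by omega, i.2⟩)) (by
      have e3 := Pool.Agent.V11290.TI.En_fin (p + 1) x v 1 0 (Or.inl rfl)
      simp only [one_mul, add_zero] at e3
      have e4 : (energy (p + 1) (fun i : Fin x => v ((i : ℕ) + 1)) : ℝ) ≤ Pool.Agent.H373R2.T7.energy (p + 1) x v := by
        exact_mod_cast e3
      rw [Fintype.card_fin]
      calc (energy (p + 1) (fun i : Fin x => v ((i : ℕ) + 1)) : ℝ) * N ≤ Pool.Agent.H373R2.T7.energy (p + 1) x v * N :=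
            mul_le_mul_of_nonneg_right e4 hN0.le
        _ ≤ Real.log N * (x : ℝ) ^ (2 * (p + 1)) := hE
        _ ≤ _ := mul_le_mul_of_nonneg_right hlogθ (by positivity))
    rw [Fintype.card_fin] at key
    have hcard : 𝒮.card ≤ (univ.filter (fun i : Fin x => v ((i : ℕ) + 1) ≠ 0 ∧ ¬ Asymp r N P T θ η (v ((i : ℕ) + 1)))).card := by
      apply le_trans (card_le_card (t := (univ.filter (fun i : Fin x => v ((i : ℕ) + 1) ≠ 0 ∧
        ¬ Asymp r N P T θ η (v ((i : ℕ) + 1)))).image (fun i : Fin x => (i : ℕ) + 1)) ?_) card_image_le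
      intro m hm
      have h3 := mem_Icc.1 (h𝒮 hm)
      rw [mem_image]
      have e5 : m - 1 + 1 = m := by omega
      refine ⟨⟨m - 1, by omega⟩, ?_, e5⟩
      rw [mem_filter]
      simp only [e5]
      have h4 := hbad m hm
      push Not at h4
      exact ⟨mem_univ _, h4⟩
    calc (𝒮.card : ℝ) ≤ _ := by exact_mod_cast hcard
      _ ≤ (N : ℝ) ^ (-θ) * x := key
      _ = x / (N : ℝ) ^ θ := by rw [Real.rpow_neg hN0.le]; ring
      _ ≤ x / Real.log N ^ (V + A + 2) := by
          apply div_le_div_of_nonneg_left (Nat.cast_nonneg _) (by positivity) e1)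
  filter_upwards [h] with α hα A
  refine (hα A 0).subset ?_
  intro j hj
  rw [Set.mem_ofPred_eq] at hj ⊢
  intro hall
  exact hj fun h h0 hh => hall h hh h0

end Pool.Agent.Results.MP_122e00_nt.FourierDecay
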