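import Pool.Agent.Results.MP_122e00_nt.AllShiftsInWindows
import Pool.Agent.V11260.PQ

/-!
# Correlations of the divisor functions for ALL shifts `p`-adically near `α`, with a power saving

`v_n ≥ 1` is a sequence of reals of exponent of convergence at most `τ`, `N_n` are natural numbers with
`v_n ≤ N_n ≤ v_n ^ (1 + θ)`, `p` is a prime and `σ > 0`. For all `α` in `ℤ_p` outside a set of Hausdorff dimension at most
`(1 - θ + τ) / σ` and all large `n` ALL the shifts `h ≠ 0` with `|h| ≤ B v_n` and `|h - α|_p ≤ v_n ^ (-σ)` have the expected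
asymptotic formula for the sum of `d_r(m) d_r(m + h)` over `m ≤ x`, for ALL `x ≤ N_n`, with a power saving.
-/

set_option autoImplicit false

namespace Pool.Agent.Results.MP_122e00_nt.PadicShifts

open Finset Polynomial MeasureTheory Filter Topology
open Pool.Agent.Results.MP_122e00_nt.PowerSavingShifts
open Pool.Agent.Results.MP_122e00_nt.AllShiftsInWindows (ExpLe count_blocks)

/-- Let `r ≥ 2`. There are polynomials `P_q` (`q ≥ 1`) and `T_h` (`h ≠ 0`) with the following properties.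

(0) As in the starting file `PowerSavingShifts`: `P_q` is the density of `d_r(n) e(b n / q)`, `(b, q) = 1`, with a power
saving; for `h ≠ 0` the series `G_h(u, v) = ∑ c_q(h) P_q(u) P_q(v)` converges absolutely, `T_h(u) + T_h'(u) = G_h(u, u)`, and
`T_h` has degree `2 r - 2` and leading coefficient `𝔖_r(h) / ((r - 1)!) ^ 2`.

(1) For every `B` there is `0 < θ ≤ 1` such that for every `0 < η ≤ θ`, every prime `p`, all sequences `v_n ≥ 1` of exponent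
of convergence at most `τ ≥ 0`, all natural numbers `N_n` with `v_n ≤ N_n ≤ v_n ^ (1 + θ)` and all `σ > 0` there is a set `E` of
`p`-adic integers of Hausdorff dimension at most `(1 - θ + τ) / σ` such that for each `α` in `ℤ_p` outside `E` and all large `n`
ALL integers `h ≠ 0` with `|h| ≤ B v_n` and `|h - α|_p ≤ v_n ^ (-σ)` satisfy, for ALL `x ≤ N_n`,
`D_r(x; h) = ∑ G_h(log m, log(m + h)) + O(N_n ^ (1 - θ))` (the sum over `m ≤ x` with `m + h ≥ 1`) and, if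
`|h| ≤ N_n ^ (1 - η)`, `D_r(x; h) = x T_h(log x) + O(N_n ^ (1 - η / 8))`, with implied constants `1`. -/
theorem result (r : ℕ) (hr : 2 ≤ r) : ∃ (P : ℕ → ℝ[X]) (T : ℤ → ℝ[X]),
    (Density r P ∧ (∀ q, 1 ≤ q → (P q).natDegree = r - 1 ∧ (P q).leadingCoeff = κ (r - 1) q / ((r - 1).factorial : ℝ)) ∧
      ∀ ε : ℝ, 0 < ε → ∃ C : ℝ, ∀ q i : ℕ, 1 ≤ q → |(P q).coeff i| ≤ C * (q : ℝ) ^ (ε - 1)) ∧
    (∀ h : ℤ, h ≠ 0 → (∀ u v : ℝ, Summable (fun q : ℕ => (ram (q + 1) h : ℝ) * ((P (q + 1)).eval u * (P (q + 1)).eval v))) ∧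
      (∀ u : ℝ, (T h).eval u + (derivative (T h)).eval u = G P h u u) ∧
      (T h).natDegree = 2 * r - 2 ∧ (T h).leadingCoeff = 𝔖 r h / ((r - 1).factorial : ℝ) ^ 2) ∧
    (∀ B : ℕ, ∃ θ : ℝ, 0 < θ ∧ θ ≤ 1 ∧ ∀ η : ℝ, 0 < η → η ≤ θ → ∀ (p : ℕ) [Fact p.Prime] (v : ℕ → ℝ) (N : ℕ → ℕ) (τ σ : ℝ),
      (∀ n, 1 ≤ v n) → 0 ≤ τ → ExpLe v τ → (∀ n, v n ≤ N n ∧ (N n : ℝ) ≤ (v n) ^ (1 + θ)) → 0 < σ →
      ∃ E : Set ℤ_[p], dimH E ≤ ENNReal.ofReal ((1 - θ + τ) / σ) ∧ ∀ α : ℤ_[p], α ∉ E →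
        ∃ n₀ : ℕ, ∀ n : ℕ, n₀ ≤ n → ∀ h : ℤ, h ≠ 0 → |(h : ℝ)| ≤ B * v n → ‖(h : ℤ_[p]) - α‖ ≤ (v n) ^ (-σ) →
          Asymp r (N n) P T θ η h) := by
  classical
  obtain ⟨P, T, h0, h1, -, h3⟩ := PowerSavingShifts.result r hr
  refine ⟨P, T, h0, h1, fun B => ?_⟩
  obtain ⟨θ, hθ, h4⟩ := h3 X (by rw [natDegree_X]) (B + 2)
  refine ⟨min θ 1, lt_min hθ one_pos, min_le_right _ _, fun η hη hηθ p _ v N τ σ hv hτ hE hN hσ => ?_⟩
  obtain ⟨M₀, h5⟩ := h4 η hη (hηθ.trans (min_le_left _ _))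
  have hvp : ∀ n, 0 < v n := fun n => lt_of_lt_of_le one_pos (hv n)
  have htv : Tendsto v atTop atTop := Pool.Agent.Y854.GM.tendsto_of_expLe hvp hτ hE
  obtain ⟨n₁, hn₁⟩ := Filter.eventually_atTop.1 (htv.eventually_ge_atTop (M₀ : ℝ))
  have hmono : ∀ n (h : ℤ), Asymp r (N n) P T θ η h → Asymp r (N n) P T (min θ 1) η h := by
    intro n h hA x hx
    refine ⟨(hA x hx).1.trans ?_, (hA x hx).2⟩
    apply Real.rpow_le_rpow_of_exponent_le ((hv n).trans (hN n).1)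
    linarith [min_le_left θ 1]
  set S : ℕ → Set ℤ := fun n => {t : ℤ | (t ≠ 0 ∧ |t| ≤ ((B + 1 : ℕ) : ℤ) * (⌈v n⌉₊ : ℤ)) ∧ ¬ Asymp r (N n) P T (min θ 1) η t}
    with hS
  obtain ⟨E, hE1, hE2⟩ := Pool.Agent.V11260.PQ.padic_seq p S (v := v) (s := 1 - min θ 1) (τ := τ) (σ := σ) hv hτ hE
    (by linarith [min_le_right θ 1]) hσ n₁ (by
      intro ε hε
      refine ⟨(2 * B + 3) * 2, fun n hn => ?_⟩
      have hM1 : 1 ≤ ⌈v n⌉₊ := Nat.ceil_pos.2 (hvp n)
      have hM0 : M₀ ≤ ⌈v n⌉₊ := by exact_mod_cast (hn₁ n hn).trans (Nat.le_ceil (v n))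
      have hMr : (1 : ℝ) ≤ (⌈v n⌉₊ : ℝ) := by exact_mod_cast hM1
      have hMv : (⌈v n⌉₊ : ℝ) ≤ 2 * v n := by
        have := (Nat.ceil_lt_add_one (hvp n).le).le
        linarith [hv n]
      have hNn : ⌈v n⌉₊ ≤ N n := Nat.ceil_le.2 (hN n).1
      have hb := count_blocks (fun t => ¬ Asymp r (N n) P T (min θ 1) η t) B ⌈v n⌉₊ hM1 ((⌈v n⌉₊ : ℝ) ^ (1 - θ)) (by
        intro c hc _
        have h6 := h5 ⌈v n⌉₊ hM0 (N n) (by rw [natDegree_X, pow_one]; exact hNn) (by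
          rw [natDegree_X, Nat.cast_one, mul_one]
          refine (hN n).2.trans ?_
          refine (Real.rpow_le_rpow_of_exponent_le (hv n) (by linarith [min_le_left θ 1])).trans
            (Real.rpow_le_rpow (hvp n).le (Nat.le_ceil _) (by linarith))) c (by
          rw [natDegree_X, pow_one]
          exact hc)
        refine le_trans ?_ h6
        apply Nat.cast_le.2
        apply card_le_card
        intro m hm
        have hm' := mem_filter.1 hm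
        refine mem_filter.2 ⟨hm'.1, ?_, ?_⟩
        · rw [eval_X]
          exact hm'.2.1
        · rw [eval_X]
          exact fun hA => hm'.2.2 (hmono n _ hA))
      refine ⟨hb.1, hb.2.trans ?_⟩
      have h8 : (⌈v n⌉₊ : ℝ) ^ (1 - θ) ≤ 2 * (v n) ^ (1 - min θ 1 + ε) := by
        calc (⌈v n⌉₊ : ℝ) ^ (1 - θ) ≤ (⌈v n⌉₊ : ℝ) ^ (1 - min θ 1) :=
              Real.rpow_le_rpow_of_exponent_le hMr (by linarith [min_le_left θ 1])
          _ ≤ (2 * v n) ^ (1 - min θ 1) := Real.rpow_le_rpow (by linarith) hMv (by linarith [min_le_right θ 1])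
          _ = 2 ^ (1 - min θ 1) * (v n) ^ (1 - min θ 1) := Real.mul_rpow (by norm_num) (hvp n).le
          _ ≤ 2 * (v n) ^ (1 - min θ 1 + ε) := by
              apply mul_le_mul _ (Real.rpow_le_rpow_of_exponent_le (hv n) (by linarith)) (Real.rpow_nonneg (hvp n).le _)
                (by norm_num)
              calc (2 : ℝ) ^ (1 - min θ 1) ≤ 2 ^ (1 : ℝ) :=
                    Real.rpow_le_rpow_of_exponent_le (by norm_num) (by linarith [lt_min hθ one_pos])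
                _ = 2 := Real.rpow_one 2
      calc (2 * (B : ℝ) + 3) * (⌈v n⌉₊ : ℝ) ^ (1 - θ) ≤ (2 * B + 3) * (2 * (v n) ^ (1 - min θ 1 + ε)) :=
            mul_le_mul_of_nonneg_left h8 (by positivity)
        _ = (2 * B + 3) * 2 * (v n) ^ (1 - min θ 1 + ε) := by ring)
  refine ⟨E, hE1, fun α hαE => ?_⟩
  obtain ⟨n₀, hn₀⟩ := hE2 α hαE
  refine ⟨n₀, fun n hn h hh hB hw => ?_⟩
  by_contra hA
  have hmem : h ∈ S n := by
    refine ⟨⟨hh, ?_⟩, hA⟩
    have h10 : v n ≤ (⌈v n⌉₊ : ℝ) := Nat.le_ceil _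
    have h6 : |(h : ℝ)| ≤ ((B : ℝ) + 1) * (⌈v n⌉₊ : ℝ) := by
      calc |(h : ℝ)| ≤ B * v n := hB
        _ ≤ (B + 1) * v n := mul_le_mul_of_nonneg_right (by linarith) (hvp n).le
        _ ≤ _ := mul_le_mul_of_nonneg_left h10 (by positivity)
    have h12 : ((|h| : ℤ) : ℝ) ≤ ((((B + 1 : ℕ) : ℤ) * (⌈v n⌉₊ : ℤ) : ℤ) : ℝ) := by
      push_cast
      exact h6
    exact_mod_cast h12
  exact absurd hw (not_le.2 (hn₀ n hn h hmem))

end Pool.Agent.Results.MP_122e00_nt.PadicShifts
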